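import Mathlib

namespace Pool.Agent.Results.MP_e0e877_co.Monotone

variable {V : Type} [Fintype V] [DecidableEq V]

/-- `Win G k n t c`: in the position `c` (`c v = none` means `v` is not yet coloured) with `n` moves
left, and Alice to move iff `t = true`, Alice has a winning strategy. At the end every closed
neighbourhood must contain all `k` colours. -/
def Win (G : SimpleGraph V) (k : ℕ) : ℕ → Bool → (V → Option (Fin k)) → Prop
  | 0, _, c => ∀ (x : V) (a : Fin k), ∃ y, (y = x ∨ G.Adj x y) ∧ c y = some a
  | n + 1, true, c => ∃ (v : V) (a : Fin k), c v = none ∧
      Win G k n false (Function.update c v (some a))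
  | n + 1, false, c => ∀ (v : V) (a : Fin k), c v = none →
      Win G k n true (Function.update c v (some a))

/-- Alice wins the domatic number game with palette of size `k`; `first = true` is the A-game and
`first = false` the B-game. The game lasts `|V|` moves from the uncoloured position. -/
def AliceWins (G : SimpleGraph V) (k : ℕ) (first : Bool) : Prop :=
  Win G k (Fintype.card V) first fun _ => none

theorem result (G : SimpleGraph V) (first : Bool) (k l : ℕ) (hk : 1 ≤ k) (hkl : k ≤ l)
    (h : AliceWins G l first) : AliceWins G k first := by
  let φ : Fin l → Fin k := fun a => if h : a.val < k then ⟨a.val, h⟩ else ⟨0, hk⟩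
  have hφ : ∀ a : Fin k, φ (Fin.castLE hkl a) = a := by
    intro a; simp [φ]
  have key : ∀ (n : ℕ) (t : Bool) (c : V → Option (Fin l)), Win G l n t c →
      Win G k n t fun v => (c v).map φ := by
    intro n
    induction n with
    | zero =>
      intro t c h x a
      obtain ⟨y, hy, e⟩ := h x (Fin.castLE hkl a)
      exact ⟨y, hy, by simp [e, hφ]⟩
    | succ n ih =>
      have upd : ∀ (c : V → Option (Fin l)) v a, (fun w => (Function.update c v (some a) w).map φ) =
          Function.update (fun w => (c w).map φ) v (some (φ a)) := by
        intro c v a
        funext w
        by_cases e : w = v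
        · subst e; simp
        · simp [Function.update_of_ne e]
      intro t c h
      cases t with
      | true =>
        obtain ⟨v, a, hv, h⟩ := h
        refine ⟨v, φ a, by simp [hv], ?_⟩
        rw [← upd]; exact ih _ _ h
      | false =>
        intro v a hv
        have := ih _ _ (h v (Fin.castLE hkl a) (by simpa using hv))
        rwa [upd, hφ] at this
  exact key _ _ _ h

end Pool.Agent.Results.MP_e0e877_co.Monotone
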